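import Mathlib

/-! Directions of segments modulo `π` (helper41, MP_e830f9_co). -/

set_option autoImplicit false

namespace Pool.Agent.K6.H41.CR

open Real

/-- The smaller of the two angles between two lines with directions `a` and `b`. -/
noncomputable def cang (a b : ℂ) : ℝ :=
  min (InnerProductGeometry.angle a b) (π - InnerProductGeometry.angle a b)

theorem cang_neg_left (a b : ℂ) : cang (-a) b = cang a b := by
  unfold cang
  rw [InnerProductGeometry.angle_neg_left, min_comm]
  congr 1
  ring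

theorem cang_comm (a b : ℂ) : cang a b = cang b a := by
  unfold cang
  rw [InnerProductGeometry.angle_comm]

theorem cang_neg_right (a b : ℂ) : cang a (-b) = cang a b := by
  rw [cang_comm, cang_neg_left, cang_comm]

theorem cang_smul_left (a b : ℂ) {r : ℝ} (hr : r ≠ 0) : cang (r • a) b = cang a b := by
  rcases lt_or_gt_of_ne hr with h | h
  · have : r • a = -((-r) • a) := by rw [neg_smul, neg_neg]
    rw [this, cang_neg_left]
    unfold cang
    rw [InnerProductGeometry.angle_smul_left_of_pos _ _ (by linarith)]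
  · unfold cang
    rw [InnerProductGeometry.angle_smul_left_of_pos _ _ h]

theorem cang_smul_right (a b : ℂ) {r : ℝ} (hr : r ≠ 0) : cang a (r • b) = cang a b := by
  rw [cang_comm, cang_smul_left _ _ hr, cang_comm]

/-- every nonzero vector has a direction in `[0, π)`. -/
theorem exists_dir (z : ℂ) (hz : z ≠ 0) :
    ∃ θ : ℝ, 0 ≤ θ ∧ θ < π ∧ ∃ r : ℝ, r ≠ 0 ∧ z = r • Complex.exp (θ * Complex.I) := by
  have hn : ‖z‖ ≠ 0 := norm_ne_zero_iff.mpr hz
  have h1 : z = (‖z‖ : ℝ) • Complex.exp (z.arg * Complex.I) := by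
    rw [Complex.real_smul]
    exact (Complex.norm_mul_exp_arg_mul_I z).symm
  have h2 := Complex.arg_le_pi z
  have h3 := Complex.neg_pi_lt_arg z
  rcases lt_or_ge z.arg 0 with h | h
  · refine ⟨z.arg + π, by linarith, by linarith, -‖z‖, neg_ne_zero.mpr hn, ?_⟩
    have h4 : Complex.exp (((z.arg + π : ℝ) : ℂ) * Complex.I) = -Complex.exp (z.arg * Complex.I) := by
      push_cast
      rw [add_mul, Complex.exp_add, Complex.exp_pi_mul_I]
      ring
    rw [h4, neg_smul, smul_neg, neg_neg]
    exact h1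
  · rcases lt_or_eq_of_le h2 with h' | h'
    · exact ⟨z.arg, h, h', ‖z‖, hn, h1⟩
    · refine ⟨0, le_refl _, Real.pi_pos, -‖z‖, neg_ne_zero.mpr hn, ?_⟩
      rw [h'] at h1
      rw [Complex.exp_pi_mul_I] at h1
      simp only [Complex.ofReal_zero, zero_mul, Complex.exp_zero]
      rw [neg_smul, ← smul_neg]
      exact h1

theorem angle_exp (θ φ : ℝ) (h : |θ - φ| < π) : InnerProductGeometry.angle
    (Complex.exp (θ * Complex.I)) (Complex.exp (φ * Complex.I)) = |θ - φ| := by
  rw [Complex.angle_eq_abs_arg (Complex.exp_ne_zero _) (Complex.exp_ne_zero _), ← Complex.exp_sub,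
    ← sub_mul, ← Complex.ofReal_sub, Complex.arg_exp_mul_I]
  congr 1
  rw [toIocMod_eq_self]
  rw [abs_lt] at h
  constructor
  · exact h.1
  · linarith

theorem cang_dir (z z' : ℂ) (θ φ r s : ℝ) (hr : r ≠ 0) (hs : s ≠ 0)
    (hz : z = r • Complex.exp (θ * Complex.I)) (hz' : z' = s • Complex.exp (φ * Complex.I))
    (h : |θ - φ| < π) : cang z z' = min |θ - φ| (π - |θ - φ|) := by
  rw [hz, hz', cang_smul_left _ _ hr, cang_smul_right _ _ hs]
  unfold cang
  rw [angle_exp θ φ h]

end Pool.Agent.K6.H41.CR
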