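import Mathlib

/-! Counting even edge sets in a finite graph (helper41, MP_e830f9_co). -/

set_option autoImplicit false

namespace Pool.Agent.K6.H41.CR

open Finset

variable {W : Type} [Fintype W]

open Classical in
/-- odd vertices of a set of edges. -/
noncomputable def odds (F : Finset (Sym2 W)) : Finset W :=
  univ.filter (fun v => Odd (F.filter (fun e => v ∈ e)).card)

open Classical in
theorem two_ends (e : Sym2 W) (he : ¬ e.IsDiag) : (univ.filter (fun v => v ∈ e)).card = 2 := by
  induction e using Sym2.ind with
  | _ a b =>
    have hab : a ≠ b := by simpa using he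
    have : (univ.filter (fun v => v ∈ s(a, b))) = {a, b} := by
      ext v
      simp [Sym2.mem_iff]
    rw [this, card_pair hab]

open Classical in
theorem odds_even (F : Finset (Sym2 W)) (hF : ∀ e ∈ F, ¬ e.IsDiag) : Even (odds F).card := by
  unfold odds
  rw [← Finset.even_sum_iff_even_card_odd]
  have h1 : ∑ v : W, (F.filter (fun e => v ∈ e)).card = 2 * F.card := by
    simp only [card_filter]
    rw [sum_comm]
    have : ∀ e ∈ F, ∑ v : W, (if v ∈ e then 1 else 0) = 2 := by
      intro e he
      rw [← card_filter]
      exact two_ends e (hF e he)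
    rw [sum_congr rfl this]
    simp [mul_comm]
  rw [h1]
  exact even_two_mul _

theorem card_symmDiff_parity {α : Type} [DecidableEq α] (A B : Finset α) :
    Even (symmDiff A B).card ↔ (Even A.card ↔ Even B.card) := by
  have h1 : (symmDiff A B).card + 2 * (A ∩ B).card = A.card + B.card := by
    have e1 : (A \ B).card + (A ∩ B).card = A.card := by
      rw [add_comm]; exact card_inter_add_card_sdiff A B
    have e2 : (B \ A).card + (A ∩ B).card = B.card := by
      rw [add_comm, inter_comm]; exact card_inter_add_card_sdiff B A
    have e3 : (symmDiff A B).card = (A \ B).card + (B \ A).card := by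
      have : symmDiff A B = (A \ B) ∪ (B \ A) := rfl
      rw [this, card_union_of_disjoint disjoint_sdiff_sdiff]
    omega
  have h2 : Even ((symmDiff A B).card + 2 * (A ∩ B).card) ↔ Even (symmDiff A B).card := by
    rw [Nat.even_add]
    simp
  rw [← h2, h1, Nat.even_add]

open Classical in
theorem odds_symmDiff (F F' : Finset (Sym2 W)) (h : odds F = odds F') :
    odds (symmDiff F F') = ∅ := by
  unfold odds at h ⊢
  rw [filter_eq_empty_iff]
  intro v _
  have h1 : (symmDiff F F').filter (fun e => v ∈ e) =
      symmDiff (F.filter (fun e => v ∈ e)) (F'.filter (fun e => v ∈ e)) := by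
    ext e
    simp only [mem_filter, mem_symmDiff]
    tauto
  rw [h1, Nat.not_odd_iff_even, card_symmDiff_parity]
  have h2 : (v ∈ univ.filter (fun v => Odd (F.filter (fun e => v ∈ e)).card)) ↔
      (v ∈ univ.filter (fun v => Odd (F'.filter (fun e => v ∈ e)).card)) := by rw [h]
  simp only [mem_filter, mem_univ, true_and] at h2
  rw [← Nat.not_odd_iff_even, ← Nat.not_odd_iff_even, not_iff_not]
  exact h2

open Classical in
/-- number of subsets without odd vertices. -/
theorem count_even (E : Finset (Sym2 W)) (hE : ∀ e ∈ E, ¬ e.IsDiag) (hW : 0 < Fintype.card W) :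
    2 ^ E.card ≤ (E.powerset.filter (fun F => odds F = ∅)).card * 2 ^ (Fintype.card W - 1) := by
  rw [← card_powerset]
  have h1 : E.powerset.card ≤ (E.powerset.filter (fun F => odds F = ∅)).card *
      (E.powerset.image odds).card := by
    apply card_le_mul_card_image
    intro S hS
    obtain ⟨F₀, hF₀, rfl⟩ := mem_image.mp hS
    apply card_le_card_of_injOn (fun F => symmDiff F F₀)
    · intro F hF
      have hF' := mem_filter.mp (mem_coe.mp hF)
      refine mem_coe.mpr (mem_filter.mpr ⟨mem_powerset.mpr ?_, odds_symmDiff _ _ hF'.2⟩)
      intro e he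
      rcases mem_symmDiff.mp he with h | h
      · exact mem_powerset.mp hF'.1 h.1
      · exact mem_powerset.mp hF₀ h.1
    · intro F _ F' _ h
      exact symmDiff_left_injective F₀ h
  refine h1.trans (Nat.mul_le_mul_left _ ?_)
  obtain ⟨w₀⟩ := Fintype.card_pos_iff.mp hW
  have h2 : (E.powerset.image odds).card ≤ ((univ : Finset W).erase w₀).powerset.card := by
    apply card_le_card_of_injOn (fun S => S.erase w₀)
    · intro S _
      exact mem_coe.mpr (mem_powerset.mpr (erase_subset_erase _ (subset_univ _)))
    · intro S hS S' hS' h
      obtain ⟨F, hF, rfl⟩ := mem_image.mp (mem_coe.mp hS)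
      obtain ⟨F', hF', rfl⟩ := mem_image.mp (mem_coe.mp hS')
      have e1 := odds_even F (fun e he => hE e (mem_powerset.mp hF he))
      have e2 := odds_even F' (fun e he => hE e (mem_powerset.mp hF' he))
      have h' : (odds F).erase w₀ = (odds F').erase w₀ := h
      by_cases ha : w₀ ∈ odds F
      · by_cases hb : w₀ ∈ odds F'
        · rw [← insert_erase ha, ← insert_erase hb, h']
        · exfalso
          rw [erase_eq_of_notMem hb] at h'
          rw [← h', card_erase_of_mem ha] at e2
          have := card_pos.mpr ⟨w₀, ha⟩
          rw [Nat.even_iff] at e1 e2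
          omega
      · by_cases hb : w₀ ∈ odds F'
        · exfalso
          rw [erase_eq_of_notMem ha] at h'
          rw [h', card_erase_of_mem hb] at e1
          have := card_pos.mpr ⟨w₀, hb⟩
          rw [Nat.even_iff] at e1 e2
          omega
        · rw [erase_eq_of_notMem ha, erase_eq_of_notMem hb] at h'
          exact h'
  refine h2.trans ?_
  rw [card_powerset, card_erase_of_mem (mem_univ _), card_univ]

end Pool.Agent.K6.H41.CR
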