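import Mathlib

/-! Counting cyclic windows (helper41, MP_e830f9_co). -/

set_option autoImplicit false

namespace Pool.Agent.K6.H41.CR

open Finset Real

/-- the cell `c` is in the window of length `L` that starts at `j`, cyclically modulo `K`. -/
def inWin (K L c j : ℕ) : Prop := (c + K - j) % K < L

instance (K L c j : ℕ) : Decidable (inWin K L c j) := by unfold inWin; infer_instance

theorem win_count (K L c : ℕ) (hL : L ≤ K) (hc : c < K) :
    L ≤ ((range K).filter (fun j => inWin K L c j)).card := by
  have hK : 0 < K := lt_of_le_of_lt (Nat.zero_le _) hc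
  calc L = (range L).card := (card_range L).symm
    _ ≤ _ := by
      apply card_le_card_of_injOn (fun i => (c + K - i) % K)
      · intro i hi
        have hi' : i < L := mem_range.mp (mem_coe.mp hi)
        refine mem_coe.mpr (mem_filter.mpr ⟨mem_range.mpr (Nat.mod_lt _ hK), ?_⟩)
        unfold inWin
        have h1 : (c + K - (c + K - i) % K) % K = i := by
          by_cases h : i ≤ c
          · have e1 : (c + K - i) % K = c - i := by
              rw [show c + K - i = (c - i) + K by omega, Nat.add_mod_right, Nat.mod_eq_of_lt (by omega)]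
            rw [e1, show c + K - (c - i) = i + K by omega, Nat.add_mod_right,
              Nat.mod_eq_of_lt (by omega)]
          · have e1 : (c + K - i) % K = c + K - i := Nat.mod_eq_of_lt (by omega)
            rw [e1, show c + K - (c + K - i) = i by omega, Nat.mod_eq_of_lt (by omega)]
        show (c + K - (c + K - i) % K) % K < L
        rw [h1]
        exact hi'
      · intro i hi i' hi' h
        have h1 : i < L := mem_range.mp (mem_coe.mp hi)
        have h2 : i' < L := mem_range.mp (mem_coe.mp hi')
        have h3 : (c + K - i) % K = (c + K - i') % K := h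
        have e1 : ∀ i, i < K → (c + K - i) % K = if i ≤ c then c - i else c + K - i := by
          intro i hi
          split_ifs with h
          · rw [show c + K - i = (c - i) + K by omega, Nat.add_mod_right, Nat.mod_eq_of_lt (by omega)]
          · exact Nat.mod_eq_of_lt (by omega)
        rw [e1 i (by omega), e1 i' (by omega)] at h3
        split_ifs at h3 <;> omega

theorem win_close (K L c c' j : ℕ) (hc : c < K) (hc' : c' < K) (hj : j < K)
    (h : inWin K L c j) (h' : inWin K L c' j) :
    (c < c' + L ∧ c' < c + L) ∨ (c' + K < c + L) ∨ (c + K < c' + L) := by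
  unfold inWin at h h'
  have e1 : ∀ c, c < K → (c + K - j) % K = if j ≤ c then c - j else c + K - j := by
    intro c hc
    split_ifs with h
    · rw [show c + K - j = (c - j) + K by omega, Nat.add_mod_right, Nat.mod_eq_of_lt (by omega)]
    · exact Nat.mod_eq_of_lt (by omega)
  rw [e1 c hc] at h
  rw [e1 c' hc'] at h'
  split_ifs at h h' <;> omega

/-- the cell of a direction. -/
noncomputable def cell (K : ℕ) (θ : ℝ) : ℕ := ⌊θ * K / π⌋₊

theorem cell_lt (K : ℕ) (hK : 0 < K) (θ : ℝ) (h0 : 0 ≤ θ) (h1 : θ < π) : cell K θ < K := by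
  unfold cell
  have hK' : (0 : ℝ) < K := by exact_mod_cast hK
  have h2 : 0 ≤ θ * K / π := by positivity
  rw [Nat.floor_lt h2, div_lt_iff₀ Real.pi_pos, mul_comm]
  exact mul_lt_mul_of_pos_left h1 hK'

theorem cell_le (K : ℕ) (θ : ℝ) (h0 : 0 ≤ θ) : (cell K θ : ℝ) * π ≤ θ * K := by
  have h2 : 0 ≤ θ * K / π := by positivity
  have h3 := Nat.floor_le h2
  rwa [le_div_iff₀ Real.pi_pos] at h3

theorem lt_cell (K : ℕ) (θ : ℝ) : θ * K < ((cell K θ : ℝ) + 1) * π := by
  have h3 := Nat.lt_floor_add_one (θ * K / π)
  rwa [div_lt_iff₀ Real.pi_pos] at h3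

/-- two directions in a window of length `α` are at distance less than `α`, modulo `π`. -/
theorem win_angle (K L : ℕ) (hK : 0 < K) (α : ℝ) (hL : (L : ℝ) * π ≤ α * K) (θ φ : ℝ)
    (hθ0 : 0 ≤ θ) (hθ1 : θ < π) (hφ0 : 0 ≤ φ) (hφ1 : φ < π) (j : ℕ) (hj : j < K)
    (h : inWin K L (cell K θ) j) (h' : inWin K L (cell K φ) j) :
    min |θ - φ| (π - |θ - φ|) < α := by
  have hK' : (0 : ℝ) < K := by exact_mod_cast hK
  have hpi := Real.pi_pos
  have a1 := cell_le K θ hθ0
  have a2 := lt_cell K θ
  have b1 := cell_le K φ hφ0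
  have b2 := lt_cell K φ
  rcases win_close K L _ _ j (cell_lt K hK θ hθ0 hθ1) (cell_lt K hK φ hφ0 hφ1) hj h h' with
    ⟨h1, h2⟩ | h1 | h1
  · refine lt_of_le_of_lt (min_le_left _ _) ?_
    have h1' : (cell K θ : ℝ) + 1 ≤ (cell K φ : ℝ) + L := by exact_mod_cast h1
    have h2' : (cell K φ : ℝ) + 1 ≤ (cell K θ : ℝ) + L := by exact_mod_cast h2
    have m1 := mul_le_mul_of_nonneg_right h1' hpi.le
    have m2 := mul_le_mul_of_nonneg_right h2' hpi.le
    rw [abs_lt]
    constructor
    · have : (φ - θ) * K < α * K := by nlinarith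
      have := lt_of_mul_lt_mul_right this hK'.le
      linarith
    · have : (θ - φ) * K < α * K := by nlinarith
      exact lt_of_mul_lt_mul_right this hK'.le
  · refine lt_of_le_of_lt (min_le_right _ _) ?_
    have h1' : (cell K φ : ℝ) + K + 1 ≤ (cell K θ : ℝ) + L := by exact_mod_cast h1
    have m1 := mul_le_mul_of_nonneg_right h1' hpi.le
    have h3 : (π - (θ - φ)) * K < α * K := by nlinarith
    have h4 := lt_of_mul_lt_mul_right h3 hK'.le
    have h5 : θ - φ ≤ |θ - φ| := le_abs_self _
    linarith
  · refine lt_of_le_of_lt (min_le_right _ _) ?_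
    have h1' : (cell K θ : ℝ) + K + 1 ≤ (cell K φ : ℝ) + L := by exact_mod_cast h1
    have m1 := mul_le_mul_of_nonneg_right h1' hpi.le
    have h3 : (π - (φ - θ)) * K < α * K := by nlinarith
    have h4 := lt_of_mul_lt_mul_right h3 hK'.le
    have h5 : -(θ - φ) ≤ |θ - φ| := neg_le_abs _
    linarith

end Pool.Agent.K6.H41.CR
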