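import Pool.Agent.K6.H41.CR.Planar
import Pool.Agent.K6.H41.CR.Dir
import Pool.Agent.K6.H41.CR.Win

/-! Crossing angles of straight-line drawings of triangle-free graphs (helper41, MP_e830f9_co). -/

set_option autoImplicit false

namespace Pool.Agent.K6.H41.CR

open Finset Real H279R3

/-- A straight-line drawing: no edge contains a vertex which is not one of its ends. -/
def IsDrawing {V : Type} (G : SimpleGraph V) (p : V → ℂ) : Prop :=
  Function.Injective p ∧ ∀ u v w, G.Adj u v → p w ∈ segment ℝ (p u) (p v) → w = u ∨ w = v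

/-- The crossing angles of a drawing. -/
def crossAngles {V : Type} (G : SimpleGraph V) (p : V → ℂ) : Set ℝ :=
  {a | ∃ u v u' v', G.Adj u v ∧ G.Adj u' v' ∧ s(u, v) ≠ s(u', v') ∧
    (∃ z, z ∈ openSegment ℝ (p u) (p v) ∧ z ∈ openSegment ℝ (p u') (p v')) ∧
    a = cang (p v - p u) (p v' - p u')}

theorem mem_seg {V : Type} (p : V → ℂ) (u v : V) (q : ℝ × ℝ)
    (h : q ∈ segment ℝ (((p u).re, (p u).im) : ℝ × ℝ) ((p v).re, (p v).im)) :
    (⟨q.1, q.2⟩ : ℂ) ∈ segment ℝ (p u) (p v) := by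
  obtain ⟨a, b, ha, hb, hab, hq⟩ := h
  refine ⟨a, b, ha, hb, hab, ?_⟩
  have h1 := congrArg Prod.fst hq
  have h2 := congrArg Prod.snd hq
  simp only [Prod.fst_add, Prod.smul_fst, Prod.snd_add, Prod.smul_snd, smul_eq_mul] at h1 h2
  apply Complex.ext
  · simp only [Complex.add_re, Complex.real_smul, Complex.mul_re, Complex.ofReal_re,
      Complex.ofReal_im, zero_mul, sub_zero]
    exact h1
  · simp only [Complex.add_im, Complex.real_smul, Complex.mul_im, Complex.ofReal_re,
      Complex.ofReal_im, zero_mul, add_zero]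
    exact h2

/-- The edges with a direction in the window `j`. -/
def win {V : Type} (G : SimpleGraph V) (θ : Sym2 V → ℝ) (K L j : ℕ) : SimpleGraph V where
  Adj u v := G.Adj u v ∧ inWin K L (cell K (θ s(u, v))) j
  symm := ⟨fun u v h => ⟨h.1.symm, by rw [Sym2.eq_swap]; exact h.2⟩⟩
  loopless := ⟨fun u h => G.loopless.irrefl u h.1⟩

theorem win_drawing {V : Type} (G : SimpleGraph V) (p : V → ℂ) (hp : IsDrawing G p) (α : ℝ)
    (hα : ∀ a ∈ crossAngles G p, α ≤ a) (θ : Sym2 V → ℝ)
    (hθ : ∀ u v, G.Adj u v → 0 ≤ θ s(u, v) ∧ θ s(u, v) < π ∧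
      ∃ r : ℝ, r ≠ 0 ∧ p v - p u = r • Complex.exp (θ s(u, v) * Complex.I))
    (K L j : ℕ) (hK : 0 < K) (hL : (L : ℝ) * π ≤ α * K) (hj : j < K) :
    IsStraightDrawing (win G θ K L j) (fun w => ((p w).re, (p w).im)) := by
  refine ⟨?_, ?_⟩
  · intro u _ v _ h
    apply hp.1
    have h1 := congrArg Prod.fst h
    have h2 := congrArg Prod.snd h
    exact Complex.ext h1 h2
  · intro u v u' v' huv huv' hne q hq hq'
    have hz := mem_seg p u v q hq
    have hz' := mem_seg p u' v' q hq'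
    set z : ℂ := ⟨q.1, q.2⟩ with hzdef
    have hqz : ∀ w, z = p w → q = ((p w).re, (p w).im) := by
      intro w h
      rw [← h]
    by_cases h1 : z = p u
    · rw [h1] at hz'
      rcases hp.2 u' v' u huv'.1 hz' with h | h
      · exact ⟨u, Sym2.mem_mk_left _ _, by rw [h]; exact Sym2.mem_mk_left _ _, hqz u h1⟩
      · exact ⟨u, Sym2.mem_mk_left _ _, by rw [h]; exact Sym2.mem_mk_right _ _, hqz u h1⟩
    by_cases h2 : z = p v
    · rw [h2] at hz'
      rcases hp.2 u' v' v huv'.1 hz' with h | h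
      · exact ⟨v, Sym2.mem_mk_right _ _, by rw [h]; exact Sym2.mem_mk_left _ _, hqz v h2⟩
      · exact ⟨v, Sym2.mem_mk_right _ _, by rw [h]; exact Sym2.mem_mk_right _ _, hqz v h2⟩
    by_cases h3 : z = p u'
    · rw [h3] at hz
      rcases hp.2 u v u' huv.1 hz with h | h
      · exact ⟨u', by rw [h]; exact Sym2.mem_mk_left _ _, Sym2.mem_mk_left _ _, hqz u' h3⟩
      · exact ⟨u', by rw [h]; exact Sym2.mem_mk_right _ _, Sym2.mem_mk_left _ _, hqz u' h3⟩
    by_cases h4 : z = p v'
    · rw [h4] at hz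
      rcases hp.2 u v v' huv.1 hz with h | h
      · exact ⟨v', by rw [h]; exact Sym2.mem_mk_left _ _, Sym2.mem_mk_right _ _, hqz v' h4⟩
      · exact ⟨v', by rw [h]; exact Sym2.mem_mk_right _ _, Sym2.mem_mk_right _ _, hqz v' h4⟩
    exfalso
    have ho := mem_openSegment_of_ne_left_right (Ne.symm h1) (Ne.symm h2) hz
    have ho' := mem_openSegment_of_ne_left_right (Ne.symm h3) (Ne.symm h4) hz'
    have hle := hα _ ⟨u, v, u', v', huv.1, huv'.1, hne, ⟨z, ho, ho'⟩, rfl⟩
    obtain ⟨t1, t2, r, hr, e1⟩ := hθ u v huv.1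
    obtain ⟨s1, s2, r', hr', e2⟩ := hθ u' v' huv'.1
    have hlt : |θ s(u, v) - θ s(u', v')| < π := by
      rw [abs_lt]
      constructor <;> linarith
    rw [cang_dir _ _ _ _ r r' hr hr' e1 e2 hlt] at hle
    have := win_angle K L hK α hL _ _ t1 t2 s1 s2 j hj huv.2 huv'.2
    linarith

open Classical in
/-- The general bound. -/
theorem avg {V : Type} [Fintype V] (G : SimpleGraph V) (htf : G.CliqueFree 3)
    (hn : 3 ≤ Fintype.card V) (p : V → ℂ) (hp : IsDrawing G p) (α : ℝ) (hα0 : 0 < α)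
    (hαπ : α ≤ π) (hα : ∀ a ∈ crossAngles G p, α ≤ a) (E : Finset (Sym2 V))
    (hE : ∀ e, e ∈ E ↔ e ∈ G.edgeSet) :
    (E.card : ℝ) * α ≤ (2 * (Fintype.card V : ℝ) - 4) * π := by
  have hpi := Real.pi_pos
  -- directions
  have hex : ∀ e : Sym2 V, ∃ t : ℝ, ∀ u v, e = s(u, v) → G.Adj u v → 0 ≤ t ∧ t < π ∧
      ∃ r : ℝ, r ≠ 0 ∧ p v - p u = r • Complex.exp (t * Complex.I) := by
    intro e
    induction e using Sym2.ind with
    | _ a b =>
      by_cases hab : G.Adj a b
      · obtain ⟨t, h0, h1, r, hr, h2⟩ := exists_dir (p b - p a)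
          (sub_ne_zero.mpr fun h => G.ne_of_adj hab (hp.1 h).symm)
        refine ⟨t, fun u v huv _ => ⟨h0, h1, ?_⟩⟩
        rcases Sym2.eq_iff.mp huv with ⟨rfl, rfl⟩ | ⟨rfl, rfl⟩
        · exact ⟨r, hr, h2⟩
        · exact ⟨-r, neg_ne_zero.mpr hr, by rw [neg_smul, ← h2, neg_sub]⟩
      · refine ⟨0, fun u v huv h => absurd ?_ hab⟩
        have h' : s(u, v) ∈ G.edgeSet := h
        rw [← huv] at h'
        exact h'
  choose θ hθ' using hex
  have hθ : ∀ u v, G.Adj u v → 0 ≤ θ s(u, v) ∧ θ s(u, v) < π ∧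
      ∃ r : ℝ, r ≠ 0 ∧ p v - p u = r • Complex.exp (θ s(u, v) * Complex.I) :=
    fun u v h => hθ' _ u v rfl h
  -- the bound for `K` windows
  have hK : ∀ K L : ℕ, 0 < K → L ≤ K → (L : ℝ) * π ≤ α * K →
      E.card * L + K * 4 ≤ K * (2 * Fintype.card V) := by
    intro K L hK hLK hL
    have h1 : ∀ j ∈ range K, (E.filter (fun e => inWin K L (cell K (θ e)) j)).card + 4 ≤
        2 * Fintype.card V := by
      intro j hj
      refine planar_bound (win G θ K L j) _
        (win_drawing G p hp α hα θ hθ K L j hK hL (mem_range.mp hj))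
        (htf.anti fun u v h => h.1) hn _ ?_
      intro e
      induction e using Sym2.ind with
      | _ a b =>
        rw [mem_filter, hE]
        rfl
    have h2 : ∑ j ∈ range K, (E.filter (fun e => inWin K L (cell K (θ e)) j)).card =
        ∑ e ∈ E, ((range K).filter (fun j => inWin K L (cell K (θ e)) j)).card := by
      simp only [card_filter]
      rw [sum_comm]
    have h3 : E.card * L ≤
        ∑ e ∈ E, ((range K).filter (fun j => inWin K L (cell K (θ e)) j)).card := by
      rw [← smul_eq_mul]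
      apply card_nsmul_le_sum
      intro e he
      apply win_count K L _ hLK
      induction e using Sym2.ind with
      | _ a b =>
        obtain ⟨t1, t2, -⟩ := hθ a b ((hE _).mp he)
        exact cell_lt K hK _ t1 t2
    have h4 := sum_le_sum h1
    rw [sum_add_distrib, h2] at h4
    simp only [sum_const, card_range, smul_eq_mul] at h4
    omega
  -- the limit
  by_contra hcon
  rw [not_le] at hcon
  set m : ℝ := (E.card : ℝ) with hm
  set δ : ℝ := m * α - (2 * (Fintype.card V : ℝ) - 4) * π with hδ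
  have hδ0 : 0 < δ := by rw [hδ]; linarith
  obtain ⟨K, hKgt⟩ := exists_nat_gt (max 0 (m * π / δ))
  have hK0 : (0 : ℝ) < K := lt_of_le_of_lt (le_max_left _ _) hKgt
  have hK1 : m * π < δ * K := by
    have := lt_of_le_of_lt (le_max_right _ _) hKgt
    rwa [div_lt_iff₀ hδ0, mul_comm (K : ℝ)] at this
  have hKn : 0 < K := by exact_mod_cast hK0
  set L : ℕ := ⌊α * K / π⌋₊ with hL
  have hnn : 0 ≤ α * K / π := by positivity
  have hL1 : (L : ℝ) * π ≤ α * K := by
    have := Nat.floor_le hnn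
    rwa [le_div_iff₀ hpi] at this
  have hL2 : α * K < ((L : ℝ) + 1) * π := by
    have := Nat.lt_floor_add_one (α * K / π)
    rwa [div_lt_iff₀ hpi] at this
  have hLK : L ≤ K := by
    have h1 : (L : ℝ) * π ≤ K * π := hL1.trans (by
      rw [mul_comm (K : ℝ)]
      exact mul_le_mul_of_nonneg_right hαπ hK0.le)
    exact_mod_cast le_of_mul_le_mul_right h1 hpi
  have hmain := hK K L hKn hLK hL1
  have hmain' : m * L + K * 4 ≤ K * (2 * (Fintype.card V : ℝ)) := by
    rw [hm]
    exact_mod_cast hmain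
  have hm0 : 0 ≤ m := by rw [hm]; positivity
  have h5 : m * (α * K) ≤ m * (((L : ℝ) + 1) * π) := mul_le_mul_of_nonneg_left hL2.le hm0
  have h6 : (m * L + K * 4) * π ≤ K * (2 * (Fintype.card V : ℝ)) * π :=
    mul_le_mul_of_nonneg_right hmain' hpi.le
  rw [hδ] at hK1
  nlinarith

/-- The crossing angular resolution: the supremum, over all drawings with crossings, of the least
crossing angle. -/
noncomputable def car {V : Type} (G : SimpleGraph V) : ℝ :=
  sSup {a | ∃ p : V → ℂ, IsDrawing G p ∧ (crossAngles G p).Nonempty ∧ a = sInf (crossAngles G p)}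

theorem cang_nonneg (a b : ℂ) : 0 ≤ cang a b :=
  le_min (InnerProductGeometry.angle_nonneg _ _)
    (sub_nonneg.mpr (InnerProductGeometry.angle_le_pi _ _))

theorem cang_le_pi (a b : ℂ) : cang a b ≤ π :=
  (min_le_left _ _).trans (InnerProductGeometry.angle_le_pi _ _)

open Classical in
theorem car_le {V : Type} [Fintype V] (G : SimpleGraph V) (htf : G.CliqueFree 3)
    (hn : 3 ≤ Fintype.card V) (E : Finset (Sym2 V)) (hE : ∀ e, e ∈ E ↔ e ∈ G.edgeSet) :
    (E.card : ℝ) * car G ≤ (2 * (Fintype.card V : ℝ) - 4) * π := by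
  have hn' : (3 : ℝ) ≤ Fintype.card V := by exact_mod_cast hn
  have hpi := Real.pi_pos
  have h0 : 0 ≤ (2 * (Fintype.card V : ℝ) - 4) * π := mul_nonneg (by linarith) hpi.le
  rcases Nat.eq_zero_or_pos E.card with hE0 | hE0
  · rw [hE0]
    simpa using h0
  have hE1 : (0 : ℝ) < E.card := by exact_mod_cast hE0
  rw [← le_div_iff₀' hE1]
  apply Real.sSup_le
  · rintro a ⟨p, hp, ⟨c, hc⟩, rfl⟩
    rw [le_div_iff₀' hE1]
    have hbdd : BddBelow (crossAngles G p) := by
      refine ⟨0, ?_⟩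
      rintro a ⟨u, v, u', v', -, -, -, -, rfl⟩
      exact cang_nonneg _ _
    rcases le_or_gt (sInf (crossAngles G p)) 0 with h | h
    · exact (mul_nonpos_of_nonneg_of_nonpos hE1.le h).trans h0
    · refine avg G htf hn p hp _ h ?_ (fun a ha => csInf_le hbdd ha) E hE
      refine (csInf_le hbdd hc).trans ?_
      obtain ⟨u, v, u', v', -, -, -, -, rfl⟩ := hc
      exact cang_le_pi _ _
  · exact div_nonneg h0 hE1.le

end Pool.Agent.K6.H41.CR
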