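import Pool.Agent.K6.H41.CR.Even
import Pool.Agent.H279R3.Drawing

/-! Triangle-free plane straight-line graphs have at most `2 n - 4` edges (helper41, MP_e830f9_co). -/

set_option autoImplicit false

namespace Pool.Agent.K6.H41.CR

open Finset H279R3

variable {W : Type} [Fintype W]

open Classical in
theorem another (F : Finset (Sym2 W)) (hodd : odds F = ∅) (v : W) (e : Sym2 W) (he : e ∈ F)
    (hv : v ∈ e) : ∃ w, s(v, w) ∈ F ∧ s(v, w) ≠ e := by
  have h1 : Even (F.filter (fun e => v ∈ e)).card := by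
    rw [← Nat.not_odd_iff_even]
    intro h
    have : v ∈ odds F := by
      unfold odds
      rw [mem_filter]
      exact ⟨mem_univ _, h⟩
    rw [hodd] at this
    exact absurd this (notMem_empty _)
  have h2 : 0 < (F.filter (fun e => v ∈ e)).card := card_pos.mpr ⟨e, mem_filter.mpr ⟨he, hv⟩⟩
  have h3 : 1 < (F.filter (fun e => v ∈ e)).card := by
    rw [Nat.even_iff] at h1
    omega
  obtain ⟨e', he', hne⟩ := exists_mem_ne h3 e
  obtain ⟨he1, he2⟩ := mem_filter.mp he'
  obtain ⟨w, rfl⟩ := he2
  exact ⟨w, he1, hne⟩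

open Classical in
theorem four_edges (H : SimpleGraph W) (htf : H.CliqueFree 3) (F : Finset (Sym2 W))
    (hF : ∀ e ∈ F, e ∈ H.edgeSet) (hodd : odds F = ∅) (hne : F.Nonempty) : 4 ≤ F.card := by
  obtain ⟨e₀, he₀⟩ := hne
  induction e₀ using Sym2.ind with
  | _ u v =>
  have huv : H.Adj u v := hF _ he₀
  obtain ⟨u', hu', hu'n⟩ := another F hodd u _ he₀ (Sym2.mem_mk_left u v)
  obtain ⟨v', hv', hv'n⟩ := another F hodd v _ he₀ (Sym2.mem_mk_right u v)
  have huu' : H.Adj u u' := hF _ hu'
  have hvv' : H.Adj v v' := hF _ hv'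
  have h1 : u' ≠ v := fun h => hu'n (by rw [h])
  have h2 : v' ≠ u := fun h => hv'n (by rw [h]; exact Sym2.eq_swap)
  have h3 : u' ≠ v' := by
    rintro rfl
    have h4 : H.IsNClique 3 {u, v, u'} := by
      rw [SimpleGraph.is3Clique_triple_iff]
      exact ⟨huv, huu', hvv'⟩
    exact htf _ h4
  obtain ⟨x, hx, hxn⟩ := another F hodd u' _ hu' (Sym2.mem_mk_right u u')
  have n1 : s(u, v) ≠ s(u, u') := fun h => hu'n h.symm
  have n2 : s(u, v) ≠ s(v, v') := fun h => hv'n h.symm
  have n3 : s(u, v) ≠ s(u', x) := by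
    intro h
    have : u' ∈ s(u, v) := by rw [h]; exact Sym2.mem_mk_left _ _
    rcases Sym2.mem_iff.mp this with h' | h'
    · exact H.ne_of_adj huu' h'.symm
    · exact h1 h'
  have n4 : s(u, u') ≠ s(v, v') := by
    intro h
    have : u ∈ s(v, v') := by rw [← h]; exact Sym2.mem_mk_left _ _
    rcases Sym2.mem_iff.mp this with h' | h'
    · exact H.ne_of_adj huv h'
    · exact h2 h'.symm
  have n5 : s(u, u') ≠ s(u', x) := fun h => hxn h.symm
  have n6 : s(v, v') ≠ s(u', x) := by
    intro h
    have : u' ∈ s(v, v') := by rw [h]; exact Sym2.mem_mk_left _ _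
    rcases Sym2.mem_iff.mp this with h' | h'
    · exact h1 h'
    · exact h3 h'
  have h5 : ({s(u, v), s(u, u'), s(v, v'), s(u', x)} : Finset (Sym2 W)).card = 4 := by
    rw [card_insert_of_notMem, card_insert_of_notMem, card_insert_of_notMem, card_singleton]
    · simpa using n6
    · simp only [mem_insert, mem_singleton, not_or]
      exact ⟨n4, n5⟩
    · simp only [mem_insert, mem_singleton, not_or]
      exact ⟨n1, n2, n3⟩
  rw [← h5]
  apply card_le_card
  intro e he
  simp only [mem_insert, mem_singleton] at he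
  rcases he with rfl | rfl | rfl | rfl
  · exact he₀
  · exact hu'
  · exact hv'
  · exact hx

open Classical in
theorem evenSet_iff (H : SimpleGraph W) (F : Finset (Sym2 W)) :
    EvenSet H (F : Set (Sym2 W)) ↔ (∀ e ∈ F, e ∈ H.edgeSet) ∧ odds F = ∅ := by
  have h1 : ∀ v : W, ((F : Set (Sym2 W)) ∩ {e | v ∈ e}).ncard =
      (F.filter (fun e => v ∈ e)).card := by
    intro v
    rw [← Set.ncard_coe_finset]
    congr 1
    ext e
    simp
  unfold EvenSet odds
  rw [filter_eq_empty_iff]
  simp only [h1, mem_univ, true_implies, Nat.not_odd_iff_even]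
  rfl

open Classical in
theorem planar_bound (H : SimpleGraph W) (pos : W → ℝ × ℝ) (hd : IsStraightDrawing H pos)
    (htf : H.CliqueFree 3) (hn : 3 ≤ Fintype.card W) (E : Finset (Sym2 W))
    (hE : ∀ e, e ∈ E ↔ e ∈ H.edgeSet) : E.card + 4 ≤ 2 * Fintype.card W := by
  have hfin : H.edgeSet.Finite := Set.toFinite _
  obtain ⟨pos', hd', hx⟩ := exists_generic hfin pos hd
  obtain ⟨S⟩ := sweep_of_drawing hd' hx
  obtain ⟨K, ends, hcut, heven⟩ := S.exists_ends hfin
  have hdiag : ∀ e ∈ E, ¬ e.IsDiag := fun e he => H.not_isDiag_of_mem_edgeSet ((hE e).mp he)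
  have hcount := count_even E hdiag (by omega)
  set N := (E.powerset.filter (fun F => odds F = ∅)).card with hN
  set Ks : Finset K := E.biUnion (fun e => if (ends e).IsDiag then ∅ else (ends e).toFinset)
    with hKs
  have hKs' : ∀ e ∈ E, ∀ x y, ends e = s(x, y) → x ≠ y → x ∈ Ks ∧ y ∈ Ks := by
    intro e he x y hxy hne
    have hd1 : ¬ (ends e).IsDiag := by rw [hxy]; simpa using hne
    constructor
    · rw [hKs, mem_biUnion]
      refine ⟨e, he, ?_⟩
      rw [if_neg hd1, Sym2.mem_toFinset, hxy]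
      exact Sym2.mem_mk_left _ _
    · rw [hKs, mem_biUnion]
      refine ⟨e, he, ?_⟩
      rw [if_neg hd1, Sym2.mem_toFinset, hxy]
      exact Sym2.mem_mk_right _ _
  -- cuts depend only on `Ks`
  have hcutKs : ∀ A : Set K, cut H ends A = cut H ends {k | k ∈ Ks ∧ k ∈ A} := by
    intro A
    ext e
    obtain ⟨x, y, hxy⟩ := ends_cases ends e
    rw [mem_cut_iff hxy, mem_cut_iff hxy]
    refine and_congr_right fun he => ?_
    by_cases hne : x = y
    · subst hne
      tauto
    · obtain ⟨h1, h2⟩ := hKs' e ((hE e).mpr he) x y hxy hne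
      simp only [Set.mem_ofPred_eq, h1, h2, true_and]
  -- stars
  have hstar : ∀ k ∈ Ks, 4 ≤ (E.filter (fun e => e ∈ cut H ends {k})).card := by
    intro k hk
    have h1 : EvenSet H (cut H ends {k}) := hcut _ (hfin.subset fun e he => he.1)
    have h2 : ((E.filter (fun e => e ∈ cut H ends {k}) : Finset (Sym2 W)) : Set (Sym2 W)) =
        cut H ends {k} := by
      ext e
      simp only [coe_filter, Set.mem_ofPred_eq]
      exact ⟨fun h => h.2, fun h => ⟨(hE e).mpr h.1, h⟩⟩
    rw [← h2, evenSet_iff] at h1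
    refine four_edges H htf _ h1.1 h1.2 ?_
    rw [hKs, mem_biUnion] at hk
    obtain ⟨e, he, hke⟩ := hk
    by_cases hd1 : (ends e).IsDiag
    · rw [if_pos hd1] at hke
      exact absurd hke (notMem_empty _)
    · rw [if_neg hd1, Sym2.mem_toFinset] at hke
      obtain ⟨y, hy⟩ := hke
      refine ⟨e, mem_filter.mpr ⟨he, ?_⟩⟩
      rw [mem_cut_iff hy]
      refine ⟨(hE e).mp he, Or.inl ⟨rfl, ?_⟩⟩
      intro h
      apply hd1
      rw [hy]
      have h' : y = k := h
      rw [h']
      simp
  have hsum : 4 * Ks.card ≤ 2 * E.card := by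
    have h1 : 4 * Ks.card ≤ ∑ k ∈ Ks, (E.filter (fun e => e ∈ cut H ends {k})).card := by
      rw [mul_comm, ← smul_eq_mul]
      exact card_nsmul_le_sum _ _ _ hstar
    refine h1.trans ?_
    simp only [card_filter]
    rw [sum_comm]
    have h2 : ∀ e ∈ E, ∑ k ∈ Ks, (if e ∈ cut H ends {k} then 1 else 0) ≤ 2 := by
      intro e _
      rw [← card_filter]
      obtain ⟨x, y, hxy⟩ := ends_cases ends e
      have h3 : Ks.filter (fun k => e ∈ cut H ends {k}) ⊆ {x, y} := by
        intro k hk
        have h4 := (mem_filter.mp hk).2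
        rw [mem_cut_iff hxy] at h4
        rcases h4.2 with h | h
        · rw [mem_insert]; exact Or.inl h.1.symm
        · rw [mem_insert, mem_singleton]; exact Or.inr h.2.symm
      exact (card_le_card h3).trans card_le_two
    calc ∑ e ∈ E, ∑ k ∈ Ks, (if e ∈ cut H ends {k} then 1 else 0) ≤ ∑ e ∈ E, 2 := sum_le_sum h2
      _ = 2 * E.card := by simp [mul_comm]
  -- every even set is the cut of a subset of `Ks`
  have hex : ∀ F ∈ E.powerset.filter (fun F => odds F = ∅), ∃ A : Set K, cut H ends A = F := by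
    intro F hF
    obtain ⟨h1, h2⟩ := mem_filter.mp hF
    refine heven F F.finite_toSet ?_
    rw [evenSet_iff]
    exact ⟨fun e he => (hE e).mp (mem_powerset.mp h1 he), h2⟩
  by_cases hKne : Ks.Nonempty
  · obtain ⟨k₀, hk₀⟩ := hKne
    have hNle : N ≤ 2 ^ (Ks.card - 1) := by
      rw [hN, ← card_erase_of_mem hk₀, ← card_powerset]
      have hex' : ∀ F : Finset (Sym2 W), ∃ B : Finset K,
          F ∈ E.powerset.filter (fun F => odds F = ∅) →
            B ∈ (Ks.erase k₀).powerset ∧ cut H ends (B : Set K) = F := by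
        intro F
        by_cases hF : F ∈ E.powerset.filter (fun F => odds F = ∅)
        · obtain ⟨A, hA⟩ := hex F hF
          by_cases hk : k₀ ∈ A
          · refine ⟨Ks.filter (fun k => k ∈ Aᶜ), fun _ => ⟨?_, ?_⟩⟩
            · rw [mem_powerset]
              intro k hk'
              obtain ⟨h1, h2⟩ := mem_filter.mp hk'
              exact mem_erase.mpr ⟨fun h => h2 (h ▸ hk), h1⟩
            · rw [coe_filter, ← hcutKs, cut_compl, hA]
          · refine ⟨Ks.filter (fun k => k ∈ A), fun _ => ⟨?_, ?_⟩⟩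
            · rw [mem_powerset]
              intro k hk'
              obtain ⟨h1, h2⟩ := mem_filter.mp hk'
              exact mem_erase.mpr ⟨fun h => hk (h ▸ h2), h1⟩
            · rw [coe_filter, ← hcutKs, hA]
        · exact ⟨∅, fun h => absurd h hF⟩
      choose g hg using hex'
      apply card_le_card_of_injOn g
      · intro F hF
        exact (hg F hF).1
      · intro F hF F' hF' h
        have e1 := (hg F hF).2
        have e2 := (hg F' hF').2
        rw [h] at e1
        exact Finset.coe_injective (e1.symm.trans e2)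
    have h1 : 2 ^ E.card ≤ 2 ^ ((Ks.card - 1) + (Fintype.card W - 1)) := by
      rw [pow_add]
      exact hcount.trans (Nat.mul_le_mul_right _ hNle)
    have h2 := (Nat.pow_le_pow_iff_right (by norm_num : 1 < 2)).mp h1
    have h3 : 0 < Ks.card := card_pos.mpr ⟨k₀, hk₀⟩
    omega
  · rw [not_nonempty_iff_eq_empty] at hKne
    have hNle : N ≤ 1 := by
      rw [hN, card_le_one]
      have h4 : ∀ F ∈ E.powerset.filter (fun F => odds F = ∅), (F : Set (Sym2 W)) = ∅ := by
        intro F hF
        obtain ⟨A, hA⟩ := hex F hF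
        rw [← hA, hcutKs, hKne]
        ext e
        obtain ⟨x, y, hxy⟩ := ends_cases ends e
        rw [mem_cut_iff hxy]
        simp
      intro F hF F' hF'
      exact Finset.coe_injective ((h4 F hF).trans (h4 F' hF').symm)
    have h1 : 2 ^ E.card ≤ 2 ^ (Fintype.card W - 1) := by
      refine hcount.trans ?_
      calc N * 2 ^ (Fintype.card W - 1) ≤ 1 * 2 ^ (Fintype.card W - 1) :=
            Nat.mul_le_mul_right _ hNle
        _ = _ := one_mul _
    have h2 := (Nat.pow_le_pow_iff_right (by norm_num : 1 < 2)).mp h1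
    omega

end Pool.Agent.K6.H41.CR
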